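import Pool.Agent.H32.RbmC

open Pool.Agent.H32.Rbm

theorem Pool.Agent.Results.MP_dabbe0_pr.NotUniversal.result :
    ∃ p ∈ stdSimplex ℝ (Fin 4 → Bool), (∀ v, 0 < p v) ∧ p ∉ closure (RBM 4 3) :=
  not_univ
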